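import Pool.Agent.H582AR.Prob
import Pool.Agent.Y889.AR.Ext

/-!
# Liouville groups with infinite cyclic quotients which are not algebraically recurrent

1. Let `q : G → ℤ` be a surjective homomorphism with an FC-nilpotent kernel (for example abelian,
nilpotent, or with finite conjugacy classes). Then `G` is Liouville with respect to EVERY finite
symmetric generating set. (The suprema of a bounded harmonic function over the cosets of the kernel
are a bounded subharmonic function of the integers, so they are all equal, and Harnack's inequality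
may be used inside the kernel: module `Pool.Agent.Y889.AR.Liou`.)

2. No countable group with a surjective homomorphism onto the wreath product of two infinite cyclic
groups is algebraically recurrent. (Every symmetric law of the quotient whose support generates it
lifts to such a law of the group; for the wreath product itself the law is that of the starting file
`LiouvilleNotAR`.)

3. Hence the answer to the question is negative for every finitely generated group with an
FC-nilpotent normal subgroup with infinite cyclic quotient which maps onto the wreath product, and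
with respect to all its generating sets. There are continuum many such groups with two generators
(central extensions of the wreath product, after P. Hall).
-/

set_option autoImplicit false

open MeasureTheory Filter Topology

namespace Pool.Agent.Results.MP_646863_pr.FCNilpotentByCyclic

/-! ### Definitions of the problem -/

/-- `S` is a finite symmetric generating set of `G` which does not contain the identity. -/
def IsGeneratingSet {G : Type} [Group G] (S : Finset G) : Prop :=
  (1 : G) ∉ S ∧ (∀ s ∈ S, s⁻¹ ∈ S) ∧ Subgroup.closure (S : Set G) = ⊤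

/-- `f` is harmonic for the simple random walk on the Cayley graph of `(G, S)`. -/
def Harmonic {G : Type} [Group G] (S : Finset G) (f : G → ℝ) : Prop :=
  ∀ g : G, f g = 1 / (S.card : ℝ) * ∑ s ∈ S, f (g * s)

/-- `G` is Liouville with respect to `S`: every bounded harmonic function is constant. -/
def Liouville {G : Type} [Group G] (S : Finset G) : Prop :=
  ∀ f : G → ℝ, Harmonic S f → (∃ C : ℝ, ∀ g, |f g| ≤ C) → ∃ c : ℝ, ∀ g, f g = c

/-- `μ` is symmetric, and its support generates the group. -/
def Admissible {G : Type} [Group G] (μ : PMF G) : Prop :=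
  (∀ g : G, μ g⁻¹ = μ g) ∧ Subgroup.closure μ.support = ⊤

/-- The law of the i.i.d. steps `ω 0, ω 1, ...` with law `μ`. -/
noncomputable def steps {G : Type} [MeasurableSpace G] (μ : PMF G) : Measure (ℕ → G) :=
  Measure.infinitePi (fun _ : ℕ => μ.toMeasure)

/-- The walk: `walk ω m = ω 0 * ω 1 * ... * ω (m - 1)`. -/
def walk {G : Type} [Group G] (ω : ℕ → G) (m : ℕ) : G := ((List.range m).map ω).prod

/-- The semigroup generated by `walk ω n, walk ω (n + 1), ...`. -/
def tail {G : Type} [Group G] (ω : ℕ → G) (n : ℕ) : Subsemigroup G :=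
  Subsemigroup.closure {g | ∃ m, n ≤ m ∧ g = walk ω m}

/-- The group `G` is algebraically recurrent: for every symmetric law whose support generates `G`
and every `n ≥ 1`, the semigroup generated by the walk from time `n` on is `G`, almost surely. -/
def AR (G : Type) [Group G] [MeasurableSpace G] : Prop :=
  ∀ μ : PMF G, Admissible μ → ∀ n : ℕ, 1 ≤ n → ∀ᵐ ω ∂(steps μ), tail ω n = ⊤

/-- There is a symmetric law whose support generates `G` such that, almost surely, the semigroup
generated by the walk after some time does not contain the identity. -/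
def StronglyNotAR (G : Type) [Group G] [MeasurableSpace G] : Prop :=
  ∃ μ : PMF G, Admissible μ ∧ (∀ᵐ ω ∂(steps μ), ∃ n : ℕ, 1 ≤ n ∧ (1 : G) ∉ tail ω n) ∧
    Tendsto (fun n => steps μ {ω | (1 : G) ∉ tail ω n}) atTop (𝓝 1)

/-- The group `N` is FC-nilpotent: it has a finite ascending chain of subgroups, from the trivial
one to `N`, such that each element of a term has only finitely many `N`-conjugates modulo the
previous term. -/
def FCNilpotent {G : Type} [Group G] (N : Subgroup G) : Prop :=
  ∃ (r : ℕ) (Z : ℕ → Subgroup G), Z 0 = ⊥ ∧ Z r = N ∧ ∀ i < r, Z (i + 1) ≤ N ∧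
    ∀ a ∈ Z (i + 1), ∃ F : Finset G, ∀ g ∈ N, ∃ y ∈ F, ∃ p ∈ Z i, g⁻¹ * a * g = y * p

/-- The commutator. -/
def cm {G : Type} [Group G] (x y : G) : G := x * y * x⁻¹ * y⁻¹

section Helpers

open Pool.Agent.H582AR Pool.Agent.H582AR.Gen

/-! ### Lifting laws -/

/-- a sequence with a given range -/
lemma exists_seq {α : Type} [Countable α] (s : Set α) (hs : s.Nonempty) :
    ∃ e : ℕ → α, Set.range e = s := by
  have := hs.to_subtype
  obtain ⟨e, he⟩ := exists_surjective_nat s
  refine ⟨fun k => e k, ?_⟩
  ext x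
  constructor
  · rintro ⟨k, rfl⟩
    exact (e k).2
  · intro hx
    obtain ⟨k, hk⟩ := he ⟨x, hx⟩
    exact ⟨k, by simp only [hk]⟩

/-- a law on `ℕ` with full support -/
noncomputable def tp : PMF ℕ := tailPMF W2 W2_zero W2_anti W2_lim

lemma tp_support : tp.support = Set.univ := by
  ext k
  rw [PMF.mem_support_iff]
  simp only [tp, Set.mem_univ, iff_true]
  rw [tailPMF_apply]
  exact (ENNReal.ofReal_pos.2 (sub_pos.2 (W2_strict k))).ne'

lemma map_inv_apply {G : Type} [Group G] (p : PMF G) (g : G) :
    (p.map (fun x => x⁻¹)) g = p g⁻¹ := by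
  classical
  rw [PMF.map_apply, tsum_eq_single g⁻¹]
  · rw [inv_inv, if_pos rfl]
  · intro x hx
    rw [if_neg]
    intro h
    apply hx
    rw [h, inv_inv]

/-- symmetric laws lift -/
lemma exists_lift {G H : Type} [Group G] [Group H] [Countable G] (π : G →* H)
    (hπ : Function.Surjective π) (ν : PMF H) (hν : ∀ h, ν h⁻¹ = ν h) :
    ∃ μ : PMF G, (∀ g, μ g⁻¹ = μ g) ∧ μ.map π = ν ∧ ∀ g, π g ∈ ν.support → g ∈ μ.support := by
  choose e he using fun h : H => exists_seq (π ⁻¹' {h}) (by
    obtain ⟨g, hg⟩ := hπ h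
    exact ⟨g, hg⟩)
  set μ0 : PMF G := ν.bind (fun h => tp.map (e h)) with hμ0
  have h1 : μ0.map π = ν := by
    rw [hμ0, PMF.map_bind]
    have h2 : ∀ h, (tp.map (e h)).map π = PMF.pure h := by
      intro h
      rw [PMF.map_comp]
      have h3 : π ∘ e h = Function.const ℕ h := by
        funext k
        have : e h k ∈ Set.range (e h) := ⟨k, rfl⟩
        rw [he h] at this
        exact this
      rw [h3, PMF.map_const]
    simp only [h2, PMF.bind_pure]
  have hνinv : ν.map (fun x => x⁻¹) = ν := by
    ext h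
    rw [map_inv_apply, hν]
  have h2 : (μ0.map (fun x => x⁻¹)).map π = ν := by
    rw [PMF.map_comp]
    have h3 : π ∘ (fun x : G => x⁻¹) = (fun x : H => x⁻¹) ∘ π := by
      funext x
      exact map_inv π x
    rw [h3, ← PMF.map_comp, h1, hνinv]
  set μ : PMF G := (PMF.uniformOfFintype Bool).bind
    (fun b => if b then μ0 else μ0.map (fun x => x⁻¹)) with hμ
  have hμg : ∀ g, μ g = 2⁻¹ * μ0 g + 2⁻¹ * μ0 g⁻¹ := by
    intro g
    rw [hμ, PMF.bind_apply, tsum_fintype, Fintype.sum_bool]
    simp only [PMF.uniformOfFintype_apply, Fintype.card_bool, if_true, Bool.false_eq_true,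
      if_false, map_inv_apply]
    norm_num
  refine ⟨μ, fun g => ?_, ?_, fun g hg => ?_⟩
  · rw [hμg, hμg, inv_inv, add_comm]
  · rw [hμ, PMF.map_bind]
    have h3 : ∀ b : Bool, (if b then μ0 else μ0.map (fun x => x⁻¹)).map π = ν := by
      intro b
      cases b
      · simp only [Bool.false_eq_true, if_false]
        exact h2
      · simp only [if_true]
        exact h1
    simp only [h3, PMF.bind_const]
  · have h3 : g ∈ μ0.support := by
      rw [hμ0, PMF.mem_support_bind_iff]
      refine ⟨π g, hg, ?_⟩
      rw [PMF.support_map, tp_support, Set.image_univ, he]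
      rfl
    rw [PMF.mem_support_iff] at h3 ⊢
    rw [hμg]
    intro h4
    rw [add_eq_zero] at h4
    have h5 := h4.1
    rw [mul_eq_zero] at h5
    rcases h5 with h5 | h5
    · exact absurd h5 (by simp)
    · exact h3 h5

lemma lift_closure {G H : Type} [Group G] [Group H] (π : G →* H)
    (ν : PMF H) (hν : Subgroup.closure ν.support = ⊤) (μ : PMF G) 
    (hμ : ∀ g, π g ∈ ν.support → g ∈ μ.support) (hπ : Function.Surjective π) :
    Subgroup.closure μ.support = ⊤ := by
  set Cl := Subgroup.closure μ.support with hCl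
  have hmem : ∀ g, π g ∈ ν.support → g ∈ Cl := fun g hg => Subgroup.subset_closure (hμ g hg)
  have hker : π.ker ≤ Cl := by
    intro k hk
    obtain ⟨h, hh⟩ := ν.support_nonempty
    obtain ⟨g, rfl⟩ := hπ h
    have h1 : g * k ∈ Cl := hmem _ (by rw [map_mul, MonoidHom.mem_ker.1 hk, mul_one]; exact hh)
    have h2 := Cl.mul_mem (Cl.inv_mem (hmem g hh)) h1
    rwa [inv_mul_cancel_left] at h2
  have hmap : Cl.map π = ⊤ := by
    rw [eq_top_iff, ← hν, Subgroup.closure_le]
    intro h hh
    obtain ⟨g, rfl⟩ := hπ h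
    exact Subgroup.mem_map_of_mem π (hmem g hh)
  rw [eq_top_iff]
  intro g _
  have h1 : π g ∈ Cl.map π := by
    rw [hmap]
    exact Subgroup.mem_top _
  obtain ⟨g', hg', h2⟩ := Subgroup.mem_map.1 h1
  have h3 : g'⁻¹ * g ∈ π.ker := by
    rw [MonoidHom.mem_ker, map_mul, map_inv, h2, inv_mul_cancel]
  have h4 := Cl.mul_mem hg' (hker h3)
  rwa [mul_inv_cancel_left] at h4

lemma map_walk {G H : Type} [Group G] [Group H] (π : G →* H) (ω : ℕ → G) (m : ℕ) :
    walk (fun i => π (ω i)) m = π (walk ω m) := by
  unfold walk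
  rw [map_list_prod, List.map_map]
  rfl

lemma map_tail {G H : Type} [Group G] [Group H] (π : G →* H) (ω : ℕ → G) (n : ℕ) {g : G}
    (hg : g ∈ tail ω n) : π g ∈ tail (fun i => π (ω i)) n := by
  have h1 : tail ω n ≤ (tail (fun i => π (ω i)) n).comap (π : G →ₙ* H) := by
    unfold tail
    rw [Subsemigroup.closure_le]
    rintro _ ⟨m, hm, rfl⟩
    refine Subsemigroup.subset_closure ⟨m, hm, ?_⟩
    exact (map_walk π ω m).symm
  exact h1 hg

lemma map_steps {G H : Type} [MeasurableSpace G] [DiscreteMeasurableSpace G]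
    [MeasurableSpace H] (π : G → H) (μ : PMF G) (ν : PMF H) (h : μ.map π = ν) :
    (steps μ).map (fun ω i => π (ω i)) = steps ν := by
  unfold steps
  have h1 : Measurable π := Measurable.of_discrete
  rw [Measure.infinitePi_map_pi _ (fun _ => h1)]
  congr 1
  funext _
  rw [PMF.toMeasure_map _ _ h1, h]

lemma mem_tail_iff {H : Type} [Group H] (ω : ℕ → H) (n : ℕ) (h : H) :
    h ∈ tail ω n ↔ ∃ l : List ℕ, l ≠ [] ∧ (∀ m ∈ l, n ≤ m) ∧ (l.map (walk ω)).prod = h := by
  constructor
  · intro hh
    unfold tail at hh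
    induction hh using Subsemigroup.closure_induction with
    | mem x hx =>
      obtain ⟨m, hm, rfl⟩ := hx
      exact ⟨[m], by simp, by simpa using hm, by simp⟩
    | mul x y _ _ hx hy =>
      obtain ⟨l, h1, h2, h3⟩ := hx
      obtain ⟨l', h1', h2', h3'⟩ := hy
      refine ⟨l ++ l', by simp [h1], fun m hm => ?_, ?_⟩
      · rcases List.mem_append.1 hm with hm | hm
        · exact h2 m hm
        · exact h2' m hm
      · rw [List.map_append, List.prod_append, h3, h3']
  · rintro ⟨l, h1, h2, rfl⟩
    induction l with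
    | nil => exact absurd rfl h1
    | cons a l ih =>
      have ha : walk ω a ∈ tail ω n :=
        Subsemigroup.subset_closure ⟨a, h2 a (List.mem_cons_self ..), rfl⟩
      rw [List.map_cons, List.prod_cons]
      by_cases hl : l = []
      · subst hl
        simpa using ha
      · exact (tail ω n).mul_mem ha (ih hl fun m hm => h2 m (List.mem_cons_of_mem _ hm))

lemma meas_walk {H : Type} [Group H] [Countable H] [MeasurableSpace H]
    [DiscreteMeasurableSpace H] (m : ℕ) : Measurable (fun ω : ℕ → H => walk ω m) := by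
  have hmul : MeasurableMul₂ H := ⟨Measurable.of_discrete⟩
  induction m with
  | zero => exact measurable_const
  | succ m ih =>
    have e : (fun ω : ℕ → H => walk ω (m + 1)) = fun ω => walk ω m * ω m := by
      funext ω
      simp [walk, List.range_succ]
    rw [e]
    exact ih.mul (measurable_pi_apply m)

lemma meas_list {H : Type} [Group H] [Countable H] [MeasurableSpace H]
    [DiscreteMeasurableSpace H] (l : List ℕ) :
    Measurable (fun ω : ℕ → H => (l.map (walk ω)).prod) := by
  have hmul : MeasurableMul₂ H := ⟨Measurable.of_discrete⟩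
  induction l with
  | nil => exact measurable_const
  | cons a l ih =>
    have e : (fun ω : ℕ → H => ((a :: l).map (walk ω)).prod) =
        fun ω => walk ω a * (l.map (walk ω)).prod := by
      funext ω
      rw [List.map_cons, List.prod_cons]
    rw [e]
    exact (meas_walk a).mul ih

lemma meas_tail {H : Type} [Group H] [Countable H] [MeasurableSpace H]
    [DiscreteMeasurableSpace H] (n : ℕ) : MeasurableSet {ω : ℕ → H | tail ω n = ⊤} := by
  have e : {ω : ℕ → H | tail ω n = ⊤} = ⋂ h : H, ⋃ l : List ℕ, {ω : ℕ → H | l ≠ [] ∧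
      (∀ m ∈ l, n ≤ m) ∧ (l.map (walk ω)).prod = h} := by
    ext ω
    simp only [Set.mem_iInter, Set.mem_iUnion]
    constructor
    · intro h1 h
      have h2 : h ∈ tail ω n := by
        have h3 : tail ω n = ⊤ := h1
        rw [h3]
        exact Subsemigroup.mem_top h
      exact (mem_tail_iff ω n h).1 h2
    · intro h1
      show tail ω n = ⊤
      rw [eq_top_iff]
      intro h _
      exact (mem_tail_iff ω n h).2 (h1 h)
  rw [e]
  refine MeasurableSet.iInter fun h => MeasurableSet.iUnion fun l => ?_
  have h1 : MeasurableSet {ω : ℕ → H | (l.map (walk ω)).prod = h} :=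
    meas_list l (MeasurableSet.of_discrete (s := {h}))
  by_cases h2 : l ≠ [] ∧ ∀ m ∈ l, n ≤ m
  · have e2 : {ω : ℕ → H | l ≠ [] ∧ (∀ m ∈ l, n ≤ m) ∧ (l.map (walk ω)).prod = h} =
        {ω : ℕ → H | (l.map (walk ω)).prod = h} := by
      ext ω
      exact ⟨fun h3 => h3.2.2, fun h3 => ⟨h2.1, h2.2, h3⟩⟩
    rw [e2]
    exact h1
  · have e2 : {ω : ℕ → H | l ≠ [] ∧ (∀ m ∈ l, n ≤ m) ∧ (l.map (walk ω)).prod = h} = ∅ := by
      ext ω
      simp only [Set.mem_empty_iff_false, iff_false]
      rintro ⟨h3, h4, -⟩
      exact h2 ⟨h3, h4⟩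
    rw [e2]
    exact MeasurableSet.empty

/-- algebraic recurrence passes to quotients -/
lemma ar_quot {G H : Type} [Group G] [Group H] [Countable G] [MeasurableSpace G]
    [DiscreteMeasurableSpace G] [MeasurableSpace H] [DiscreteMeasurableSpace H] (π : G →* H)
    (hπ : Function.Surjective π) (hG : AR G) : AR H := by
  intro ν hν n hn
  obtain ⟨μ, hμ1, hμ2, hμ3⟩ := exists_lift π hπ ν hν.1
  have h1 := hG μ ⟨hμ1, lift_closure π ν hν.2 μ hμ3 hπ⟩ n hn
  have hcH : Countable H := hπ.countable
  have hm : Measurable (fun (ω : ℕ → G) i => π (ω i)) := by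
    have h1 : Measurable π := Measurable.of_discrete
    fun_prop
  rw [← map_steps π μ ν hμ2, ae_map_iff hm.aemeasurable (meas_tail n)]
  filter_upwards [h1] with ω hω
  rw [eq_top_iff]
  intro h _
  obtain ⟨g, rfl⟩ := hπ h
  refine map_tail π ω n ?_
  rw [hω]
  exact Subsemigroup.mem_top g

lemma not_mem_of_quot {G H : Type} [Group G] [Group H] [Countable G] [MeasurableSpace G]
    [DiscreteMeasurableSpace G] [MeasurableSpace H] [DiscreteMeasurableSpace H] (π : G →* H)
    (hπ : Function.Surjective π)
    (hH : ∃ ν : PMF H, Admissible ν ∧ ∀ᵐ ω ∂(steps ν), ∃ n : ℕ, 1 ≤ n ∧ (1 : H) ∉ tail ω n) :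
    ∃ μ : PMF G, Admissible μ ∧ ∀ᵐ ω ∂(steps μ), ∃ n : ℕ, 1 ≤ n ∧ (1 : G) ∉ tail ω n := by
  obtain ⟨ν, hν, h⟩ := hH
  obtain ⟨μ, hμ1, hμ2, hμ3⟩ := exists_lift π hπ ν hν.1
  refine ⟨μ, ⟨hμ1, lift_closure π ν hν.2 μ hμ3 hπ⟩, ?_⟩
  rw [← map_steps π μ ν hμ2] at h
  have h2 := ae_of_ae_map (Measurable.aemeasurable (by
    have h1 : Measurable π := Measurable.of_discrete
    fun_prop)) h
  filter_upwards [h2] with ω hω
  obtain ⟨n, hn, h3⟩ := hω
  refine ⟨n, hn, fun h4 => h3 ?_⟩
  have := map_tail π ω n h4
  rwa [map_one] at this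

lemma tendsto_of_ae {G : Type} [Group G] [MeasurableSpace G] (μ : PMF G)
    (h : ∀ᵐ ω ∂(steps μ), ∃ n : ℕ, 1 ≤ n ∧ (1 : G) ∉ tail ω n) :
    Tendsto (fun n => steps μ {ω | (1 : G) ∉ tail ω n}) atTop (𝓝 1) := by
  have hmono : Monotone fun n => {ω : ℕ → G | (1 : G) ∉ tail ω n} := by
    intro n n' hn ω hω hcon
    apply hω
    have : tail ω n' ≤ tail ω n := by
      unfold tail
      apply Subsemigroup.closure_mono
      rintro _ ⟨m, hm, rfl⟩
      exact ⟨m, hn.trans hm, rfl⟩
    exact this hcon
  have h1 := tendsto_measure_iUnion_atTop (μ := steps μ) hmono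
  have h2 : steps μ (⋃ n, {ω : ℕ → G | (1 : G) ∉ tail ω n}) = 1 := by
    have h3 : steps μ (⋃ n, {ω : ℕ → G | (1 : G) ∉ tail ω n}) = steps μ Set.univ := by
      apply measure_congr
      filter_upwards [h] with ω hω
      obtain ⟨n, -, hn⟩ := hω
      refine eq_iff_iff.2 ⟨fun _ => trivial, fun _ => ?_⟩
      exact Set.mem_iUnion.2 ⟨n, hn⟩
    rw [h3]
    unfold steps
    exact measure_univ
  rw [h2] at h1
  exact h1

/-- the wreath product -/
lemma strong_W [MeasurableSpace W] [DiscreteMeasurableSpace W] :
    ∀ᵐ ω ∂(steps nu), ∃ n : ℕ, 1 ≤ n ∧ (1 : W) ∉ tail ω n := by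
  unfold steps
  filter_upwards [nu_strong] with ω hω
  obtain ⟨n, hn, z, hz, hz0, h⟩ := hω
  refine ⟨n, hn, fun h1 => ?_⟩
  have hle : tail ω n ≤ Pz z hz hz0 := by
    unfold tail
    rw [Subsemigroup.closure_le]
    rintro _ ⟨m, hm, rfl⟩
    exact h m hm
  exact one_notMem_Pz z hz hz0 (hle h1)

lemma stronglyNotAR_of_quot {G : Type} [Group G] [Countable G] [MeasurableSpace G]
    [DiscreteMeasurableSpace G] (π : G →* W) (hπ : Function.Surjective π) :
    StronglyNotAR G := by
  let _ : MeasurableSpace W := ⊤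
  have : DiscreteMeasurableSpace W := ⟨fun _ => trivial⟩
  obtain ⟨μ, hμ, h⟩ := not_mem_of_quot π hπ ⟨nu, ⟨nu_symm, nu_closure⟩, strong_W⟩
  exact ⟨μ, hμ, h, tendsto_of_ae μ h⟩

lemma not_ar {G : Type} [Group G] [MeasurableSpace G] (h : StronglyNotAR G) : ¬ AR G := by
  obtain ⟨μ, hμ, h1, -⟩ := h
  intro hAR
  have h2 : ∀ᵐ ω ∂(steps μ), ∀ n : ℕ, 1 ≤ n → tail ω n = ⊤ := by
    rw [ae_all_iff]
    intro n
    by_cases hn : 1 ≤ n
    · filter_upwards [hAR μ hμ n hn] with ω hω _ using hω
    · exact Filter.Eventually.of_forall fun ω hn' => absurd hn' hn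
  have h3 : ∀ᵐ ω ∂(steps μ), False := by
    filter_upwards [h1, h2] with ω hω1 hω2
    obtain ⟨n, hn, h4⟩ := hω1
    apply h4
    rw [hω2 n hn]
    exact Subsemigroup.mem_top _
  unfold steps at h3
  rw [ae_iff] at h3
  simp at h3

lemma liouville_of {G : Type} [Group G] (q : G →* Multiplicative ℤ)
    (hq : Function.Surjective q) (hN : FCNilpotent q.ker) (S : Finset G)
    (hS : IsGeneratingSet S) : Liouville S := by
  intro f hf hb
  refine ⟨f 1, fun g => ?_⟩
  have hcard : (S.card : ℝ) ≠ 0 := by
    intro h0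
    have h1 : S = ∅ := by
      rw [← Finset.card_eq_zero]
      exact_mod_cast h0
    have h2 := hS.2.2
    rw [h1, Finset.coe_empty, Subgroup.closure_empty] at h2
    obtain ⟨g, hg⟩ := hq (Multiplicative.ofAdd 1)
    have h3 : g ∈ (⊥ : Subgroup G) := by
      rw [h2]
      exact Subgroup.mem_top g
    rw [Subgroup.mem_bot] at h3
    rw [h3, map_one] at hg
    exact absurd (congrArg Multiplicative.toAdd hg) (by simp)
  refine Pool.Agent.Y889.AR.liouville q hq hN S hS.2.1 hS.2.2 f ⟨hb, fun g => ?_⟩ g 1
  have h1 := hf g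
  rw [h1]
  field_simp

/-! ### The family -/

open Pool.Agent.Y889.AR

lemma exists_gen (A : Set ℕ) : ∃ S : Finset (GA A), IsGeneratingSet S := by
  classical
  refine ⟨{tt A, (tt A)⁻¹, aa A, (aa A)⁻¹}, ?_, ?_, ?_⟩
  · have h1 : tt A ≠ 1 := by
      intro h
      have h2 : (tt A : E A).s = (1 : E A).s := congrArg (fun x : GA A => (x : E A).s) h
      simp [tt, E.t] at h2
    have h2 : aa A ≠ 1 := by
      intro h
      have h2 : (aa A : E A).F = (1 : E A).F := congrArg (fun x : GA A => (x : E A).F) h
      simp [aa, E.a] at h2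
    simp only [Finset.mem_insert, Finset.mem_singleton, not_or]
    refine ⟨h1.symm, fun h => h1 ?_, h2.symm, fun h => h2 ?_⟩
    · rw [← inv_inj, ← h, inv_one]
    · rw [← inv_inj, ← h, inv_one]
  · intro s hs
    simp only [Finset.mem_insert, Finset.mem_singleton] at hs ⊢
    rcases hs with rfl | rfl | rfl | rfl
    · exact Or.inr (Or.inl rfl)
    · exact Or.inl (inv_inv _)
    · exact Or.inr (Or.inr (Or.inr rfl))
    · exact Or.inr (Or.inr (Or.inl (inv_inv _)))
  · rw [eq_top_iff, ← closure_gens A]
    apply Subgroup.closure_mono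
    intro x hx
    simp only [Set.mem_insert_iff, Set.mem_singleton_iff] at hx
    rcases hx with rfl | rfl
    · simp
    · simp

lemma metab (x y z w : W) : cm (cm x y) (cm z w) = 1 := by
  have h : cm x y * cm z w = cm z w * cm x y := by
    apply comm_of_s
    · simp only [cm, W.mul_s, W.inv_s]; ring
    · simp only [cm, W.mul_s, W.inv_s]; ring
  unfold cm at h ⊢
  rw [h]
  group

lemma map_cm {G H : Type} [Group G] [Group H] (π : G →* H) (x y : G) :
    π (cm x y) = cm (π x) (π y) := by
  unfold cm
  simp only [map_mul, map_inv]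

lemma center_metab (A : Set ℕ) (x y z w u : GA A) :
    cm (cm x y) (cm z w) * u = u * cm (cm x y) (cm z w) := by
  apply prA_central
  simp only [map_cm]
  exact metab _ _ _ _

end Helpers

/-- (a) A countable group `G` with a surjective homomorphism onto the wreath product of two infinite
cyclic groups is not algebraically recurrent; there is a symmetric law, whose support generates `G`,
such that almost surely the semigroup generated by the walk after some time does not contain the
identity. If, moreover, `G` has a surjective homomorphism onto the integers with an FC-nilpotent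
kernel, then `G` is Liouville with respect to every finite symmetric generating set.
(b) There are continuum many pairwise non-isomorphic groups with two generators (in which all double
commutators are central) which are Liouville with respect to every finite symmetric generating set
and are not algebraically recurrent, in the strong sense of (a). -/
theorem result :
    (∀ (G : Type) [Group G] [Countable G] [MeasurableSpace G] [DiscreteMeasurableSpace G]
      (π : G →* Pool.Agent.H582AR.W), Function.Surjective π →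
      StronglyNotAR G ∧ ¬ AR G ∧
      ∀ q : G →* Multiplicative ℤ, Function.Surjective q → FCNilpotent q.ker →
        ∀ S : Finset G, IsGeneratingSet S → Liouville S) ∧
    ∃ (I : Type) (G : I → Type) (_ : ∀ i, Group (G i)) (_ : ∀ i, Countable (G i))
      (_ : ∀ i, MeasurableSpace (G i)) (_ : ∀ i, DiscreteMeasurableSpace (G i)),
      Cardinal.mk I = Cardinal.continuum ∧ (∀ i j, i ≠ j → IsEmpty (G i ≃* G j)) ∧
      ∀ i, (∃ x y : G i, Subgroup.closure {x, y} = ⊤) ∧
        (∀ x y z w u : G i, cm (cm x y) (cm z w) * u = u * cm (cm x y) (cm z w)) ∧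
        (∃ S : Finset (G i), IsGeneratingSet S) ∧
        (∀ S : Finset (G i), IsGeneratingSet S → Liouville S) ∧
        StronglyNotAR (G i) ∧ ¬ AR (G i) := by
  refine ⟨fun G _ _ _ _ π hπ => ⟨stronglyNotAR_of_quot π hπ, not_ar (stronglyNotAR_of_quot π hπ),
    fun q hq hN S hS => liouville_of q hq hN S hS⟩, ?_⟩
  let r : Setoid (Set ℕ) :=
    { r := fun A A' => Nonempty (Pool.Agent.Y889.AR.GA A ≃* Pool.Agent.Y889.AR.GA A')
      iseqv := ⟨fun _ => ⟨MulEquiv.refl _⟩, fun ⟨e⟩ => ⟨e.symm⟩, fun ⟨e⟩ ⟨f⟩ => ⟨e.trans f⟩⟩ }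
  refine ⟨Quotient r, fun i => Pool.Agent.Y889.AR.GA (Quotient.out i), fun i => inferInstance,
    fun i => Pool.Agent.Y889.AR.countable_GA _, fun i => ⊤,
    fun i => @DiscreteMeasurableSpace.mk _ ⊤ (fun _ => trivial),
    Pool.Agent.Y889.AR.mk_quot r Pool.Agent.Y889.AR.iso_countable, ?_, fun i => ?_⟩
  · intro i j hij
    rw [← not_nonempty_iff]
    intro h
    apply hij
    have h1 : Quotient.mk r (Quotient.out i) = Quotient.mk r (Quotient.out j) := Quotient.sound h
    rwa [Quotient.out_eq, Quotient.out_eq] at h1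
  · have hc := Pool.Agent.Y889.AR.countable_GA (Quotient.out i)
    let _ : MeasurableSpace (Pool.Agent.Y889.AR.GA (Quotient.out i)) := ⊤
    have _ : DiscreteMeasurableSpace (Pool.Agent.Y889.AR.GA (Quotient.out i)) :=
      ⟨fun _ => trivial⟩
    have h1 := stronglyNotAR_of_quot _ (Pool.Agent.Y889.AR.prA_surj (Quotient.out i))
    exact ⟨⟨_, _, Pool.Agent.Y889.AR.closure_gens _⟩, center_metab _, exists_gen _,
      fun S hS => liouville_of _ (Pool.Agent.Y889.AR.qA_surj _)
        (Pool.Agent.Y889.AR.fcNil_GA _) S hS, h1, not_ar h1⟩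

end Pool.Agent.Results.MP_646863_pr.FCNilpotentByCyclic
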